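import Pool.Agent.P.MP_48c1a1_co.Cube

/-!
If a ground set of `N` points carries at most `3 N` hyperedges, each with at least two points, then
only an exponentially small fraction of its subsets are disjoint unions of hyperedges.
-/

set_option autoImplicit false
set_option linter.unusedSectionVars false

namespace Pool.Agent.P.MP_48c1a1_co

open Finset Real

open scoped Classical

variable {α ι : Type} [DecidableEq α] [DecidableEq ι]

/-- `S` is a disjoint union of some of the hyperedges `e j`, `j ∈ J`. -/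
def IsExact (J : Finset ι) (e : ι → Finset α) (S : Finset α) : Prop :=
  ∃ M ⊆ J, (M : Set ι).PairwiseDisjoint e ∧ S = M.biUnion e

/-- Families of pairwise disjoint hyperedges inside `S`. -/
noncomputable def packs (J : Finset ι) (e : ι → Finset α) (S : Finset α) : Finset (Finset ι) :=
  J.powerset.filter fun M => (M : Set ι).PairwiseDisjoint e ∧ ∀ j ∈ M, e j ⊆ S

/-- The largest number of points of `S` covered by disjoint hyperedges inside `S`. -/
noncomputable def best (J : Finset ι) (e : ι → Finset α) (S : Finset α) : ℕ :=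
  (packs J e S).sup fun M => ∑ j ∈ M, (e j).card

theorem best_mono (J : Finset ι) (e : ι → Finset α) {S S' : Finset α} (h : S ⊆ S') :
    best J e S ≤ best J e S' := by
  refine sup_mono fun M hM => ?_
  simp only [packs, mem_filter] at hM ⊢
  exact ⟨hM.1, hM.2.1, fun j hj => (hM.2.2 j hj).trans h⟩

theorem best_insert_le (J : Finset ι) (e : ι → Finset α) (A : ℕ) (hA : ∀ j ∈ J, (e j).card ≤ A)
    (S : Finset α) (x : α) : best J e (insert x S) ≤ best J e S + A := by
  refine Finset.sup_le fun M hM => ?_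
  simp only [packs, mem_filter, mem_powerset] at hM
  obtain ⟨hMJ, hd, hsub⟩ := hM
  rw [← sum_filter_add_sum_filter_not M (fun j => x ∉ e j)]
  refine add_le_add ?_ ?_
  · refine le_sup (f := fun M => ∑ j ∈ M, (e j).card) ?_
    simp only [packs, mem_filter, mem_powerset]
    refine ⟨(filter_subset _ _).trans hMJ, hd.subset (coe_subset.2 (filter_subset _ _)), ?_⟩
    intro j hj
    exact (subset_insert_iff_of_notMem hj.2).1 (hsub j hj.1)
  · have hc : (M.filter fun j => ¬ x ∉ e j).card ≤ 1 := by
      refine card_le_one.2 fun i hi j hj => ?_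
      rw [mem_filter, not_not] at hi hj
      by_contra hij
      exact disjoint_left.1 (hd hi.1 hj.1 hij) hi.2 hj.2
    calc ∑ j ∈ M.filter (fun j => ¬ x ∉ e j), (e j).card
        ≤ (M.filter fun j => ¬ x ∉ e j).card • A :=
          sum_le_card_nsmul _ _ _ fun j hj => hA j (hMJ (mem_filter.1 hj).1)
      _ ≤ A := by rw [smul_eq_mul]; nlinarith

/-- Points of `S` lying in no hyperedge contained in `S`. -/
noncomputable def unc (J : Finset ι) (e : ι → Finset α) (S : Finset α) : Finset α :=
  S.filter fun x => ∀ j ∈ J, x ∈ e j → ¬ e j ⊆ S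

theorem best_add_unc_le {J J' : Finset ι} (hJ : J' ⊆ J) (e : ι → Finset α) (S : Finset α) :
    best J' e S + (unc J e S).card ≤ S.card := by
  have hu : unc J e S ⊆ S := filter_subset _ _
  have : best J' e S ≤ S.card - (unc J e S).card := by
    refine Finset.sup_le fun M hM => ?_
    simp only [packs, mem_filter, mem_powerset] at hM
    obtain ⟨hMJ, hd, hsub⟩ := hM
    rw [← card_biUnion hd, ← card_sdiff_of_subset hu]
    refine card_le_card fun x hx => ?_
    obtain ⟨j, hj, hxj⟩ := mem_biUnion.1 hx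
    refine mem_sdiff.2 ⟨hsub j hj hxj, fun hx' => ?_⟩
    exact (mem_filter.1 hx').2 j (hJ (hMJ hj)) hxj (hsub j hj)
  have := card_le_card hu
  omega

theorem one_sub_ge_exp {y : ℝ} (h0 : 0 ≤ y) (h1 : y ≤ 1 / 2) : exp (-(2 * y)) ≤ 1 - y := by
  have h2 := add_one_le_exp (2 * y)
  rw [exp_neg, inv_le_iff_one_le_mul₀ (exp_pos _)]
  nlinarith

theorem card_div_pow_le (a : ℕ) (ha : 1 ≤ a) : (a : ℝ) * (1 / 2 ^ (a - 1)) ≤ 1 := by
  obtain ⟨b, rfl⟩ := Nat.exists_eq_add_of_le' ha
  rw [Nat.add_sub_cancel, mul_one_div, div_le_one (by positivity)]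
  exact_mod_cast Nat.lt_two_pow_self

/-- On average a positive fraction of the points are uncoverable. -/
theorem sum_unc_ge (P : Finset α) (J : Finset ι) (e : ι → Finset α)
    (he : ∀ j ∈ J, e j ⊆ P ∧ 2 ≤ (e j).card) (hJ : J.card ≤ 3 * P.card) :
    2 ^ P.card * (exp (-6) / 2 * P.card) ≤ ∑ S ∈ P.powerset, ((unc J e S).card : ℝ) := by
  set w : α → ℝ := fun x => ∑ j ∈ J.filter (fun j => x ∈ e j), 1 / (2 : ℝ) ^ ((e j).card - 1)
    with hw
  have h1 : ∑ S ∈ P.powerset, ((unc J e S).card : ℝ) =
      ∑ x ∈ P, ((P.powerset.filter fun S => x ∈ unc J e S).card : ℝ) := by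
    have : ∀ S ∈ P.powerset, ((unc J e S).card : ℝ) =
        ∑ x ∈ P, if x ∈ unc J e S then (1 : ℝ) else 0 := by
      intro S hS
      rw [sum_boole]
      congr 2
      ext x
      simp only [mem_filter]
      exact ⟨fun hx => ⟨mem_powerset.1 hS (filter_subset _ _ hx), hx⟩, fun hx => hx.2⟩
    rw [sum_congr rfl this, sum_comm]
    refine sum_congr rfl fun x _ => ?_
    rw [sum_boole]
  have h2 : ∀ x ∈ P, 2 ^ P.card / 2 * (exp (-6) * (7 - 2 * w x)) ≤
      ((P.powerset.filter fun S => x ∈ unc J e S).card : ℝ) := by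
    intro x hx
    have hh := harris_prod (P.erase x) (fun j => (e j).erase x) (J.filter fun j => x ∈ e j)
      (fun j hj => erase_subset_erase _ (he j (mem_filter.1 hj).1).1)
    have hinj : (((P.erase x).powerset.filter fun S =>
        ∀ j ∈ J.filter (fun j => x ∈ e j), ¬ (e j).erase x ⊆ S).card : ℝ) ≤
        ((P.powerset.filter fun S => x ∈ unc J e S).card : ℝ) := by
      norm_cast
      refine card_le_card_of_injOn (fun S => insert x S) ?_ ?_
      · intro S hS
        have hS' := mem_filter.1 (mem_coe.1 hS)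
        have hSP := mem_powerset.1 hS'.1
        refine mem_coe.2 (mem_filter.2 ⟨mem_powerset.2 ?_, ?_⟩)
        · exact insert_subset hx (hSP.trans (erase_subset _ _))
        · refine mem_filter.2 ⟨mem_insert_self _ _, fun j hj hxj hsub => ?_⟩
          exact hS'.2 j (mem_filter.2 ⟨hj, hxj⟩) (subset_insert_iff.1 hsub)
      · intro S hS S' hS' h
        have hx1 : x ∉ S := fun hm =>
          notMem_erase x P (mem_powerset.1 (mem_filter.1 (mem_coe.1 hS)).1 hm)
        have hx2 : x ∉ S' := fun hm =>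
          notMem_erase x P (mem_powerset.1 (mem_filter.1 (mem_coe.1 hS')).1 hm)
        have h' : insert x S = insert x S' := h
        rw [← erase_insert hx1, h', erase_insert hx2]
    refine le_trans ?_ (hh.trans hinj)
    have hc : (2 : ℝ) ^ P.card / 2 = 2 ^ (P.erase x).card := by
      rw [← card_erase_add_one hx, pow_succ]; ring
    rw [hc]
    refine mul_le_mul_of_nonneg_left ?_ (by positivity)
    have h3 : exp (-6) * (7 - 2 * w x) ≤ exp (-(2 * w x)) := by
      have : exp (-(2 * w x)) = exp (-6) * exp (6 - 2 * w x) := by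
        rw [← exp_add]; congr 1; ring
      rw [this]
      refine mul_le_mul_of_nonneg_left ?_ (exp_pos _).le
      linarith [add_one_le_exp (6 - 2 * w x)]
    refine h3.trans ?_
    have h4 : exp (-(2 * w x)) = ∏ j ∈ J.filter (fun j => x ∈ e j),
        exp (-(2 * (1 / (2 : ℝ) ^ ((e j).card - 1)))) := by
      rw [← exp_sum, sum_neg_distrib, ← mul_sum]
    rw [h4]
    refine prod_le_prod (fun _ _ => (exp_pos _).le) fun j hj => ?_
    have hj' := mem_filter.1 hj
    rw [card_erase_of_mem hj'.2]
    refine one_sub_ge_exp (by positivity) ?_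
    have h5 : 1 ≤ (e j).card - 1 := by have := (he j hj'.1).2; omega
    have h6 : (2 : ℝ) ^ 1 ≤ 2 ^ ((e j).card - 1) := pow_le_pow_right₀ (by norm_num) h5
    exact one_div_le_one_div_of_le (by norm_num) (by simpa using h6)
  have h3 : ∑ x ∈ P, w x ≤ 3 * P.card := by
    have : ∑ x ∈ P, w x = ∑ j ∈ J, ((e j).card : ℝ) * (1 / (2 : ℝ) ^ ((e j).card - 1)) := by
      simp only [hw, sum_filter]
      rw [sum_comm]
      refine sum_congr rfl fun j hj => ?_
      rw [← sum_filter, sum_const, nsmul_eq_mul]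
      congr 2
      rw [filter_mem_eq_inter, inter_eq_right.2 (he j hj).1]
    rw [this]
    calc ∑ j ∈ J, ((e j).card : ℝ) * (1 / (2 : ℝ) ^ ((e j).card - 1)) ≤ J.card • (1 : ℝ) :=
          sum_le_card_nsmul _ _ _ fun j hj =>
            card_div_pow_le _ (by have := (he j hj).2; omega)
      _ ≤ 3 * P.card := by rw [nsmul_eq_mul, mul_one]; exact_mod_cast hJ
  rw [h1]
  refine le_trans ?_ (sum_le_sum h2)
  rw [← mul_sum, ← mul_sum, sum_sub_distrib, ← mul_sum, sum_const, nsmul_eq_mul]
  have hp : (0 : ℝ) < 2 ^ P.card / 2 * exp (-6) := by positivity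
  calc (2 : ℝ) ^ P.card * (exp (-6) / 2 * P.card)
      = 2 ^ P.card / 2 * exp (-6) * P.card := by ring
    _ ≤ 2 ^ P.card / 2 * exp (-6) * (P.card * 7 - 2 * ∑ x ∈ P, w x) :=
        mul_le_mul_of_nonneg_left (by linarith) hp.le
    _ = _ := by ring

/-- Sets with small deficiency are rare. -/
theorem card_small_deficiency (P : Finset α) (J : Finset ι) (e : ι → Finset α)
    (he : ∀ j ∈ J, e j ⊆ P ∧ 2 ≤ (e j).card) (hJ : J.card ≤ 3 * P.card) (A : ℕ) (hA : 1 ≤ A) :
    ((P.powerset.filter fun S => (S.card : ℝ) - best (J.filter fun j => (e j).card ≤ A) e S ≤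
        exp (-6) / 4 * P.card).card : ℝ) ≤
      2 ^ P.card * exp (-((exp (-6) / 2) ^ 2 / (2 * A ^ 2) * P.card)) := by
  set c : ℝ := exp (-6) / 2 with hc
  have hc0 : 0 < c := by positivity
  have hA' : (1 : ℝ) ≤ A := by exact_mod_cast hA
  set Js := J.filter fun j => (e j).card ≤ A with hJs
  set D : Finset α → ℝ := fun S => (S.card : ℝ) - best Js e S with hD
  set l : ℝ := 2 * c / A ^ 2 with hl
  have hl0 : 0 < l := by positivity
  have hLip : ∀ S x, x ∉ S → |l * D (insert x S) - l * D S| ≤ l * A := by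
    intro S x hx
    rw [← mul_sub, abs_mul, abs_of_pos hl0]
    refine mul_le_mul_of_nonneg_left ?_ hl0.le
    have h1 : (best Js e S : ℝ) ≤ best Js e (insert x S) := by
      exact_mod_cast best_mono Js e (subset_insert x S)
    have h2 : (best Js e (insert x S) : ℝ) ≤ best Js e S + A := by
      exact_mod_cast best_insert_le Js e A (fun j hj => (mem_filter.1 hj).2) S x
    simp only [hD, card_insert_of_notMem hx]
    push_cast
    rw [abs_le]
    constructor <;> linarith
  have hm := cube_mgf (l * A) P (fun S => l * D S) hLip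
  have havg : l * (c * P.card) ≤ (∑ S ∈ P.powerset, l * D S) / 2 ^ P.card := by
    rw [le_div_iff₀ (by positivity), ← mul_sum, mul_assoc]
    refine mul_le_mul_of_nonneg_left ?_ hl0.le
    rw [mul_comm]
    refine (sum_unc_ge P J e he hJ).trans (sum_le_sum fun S _ => ?_)
    have := best_add_unc_le (filter_subset (fun j => (e j).card ≤ A) J) e S
    have h' : (best Js e S : ℝ) + (unc J e S).card ≤ S.card := by exact_mod_cast this
    simp only [hD]
    linarith
  set B := P.powerset.filter fun S => D S ≤ exp (-6) / 4 * P.card with hB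
  have h2 : ∀ S ∈ B, exp (-(l * (c / 2 * P.card))) ≤ exp (-(l * D S)) := by
    intro S hS
    have h3 := (mem_filter.1 hS).2
    have h4 : exp (-6) / 4 * P.card = c / 2 * P.card := by rw [hc]; ring
    rw [h4] at h3
    exact exp_le_exp.2 (neg_le_neg (mul_le_mul_of_nonneg_left h3 hl0.le))
  have h3 := card_nsmul_le_sum _ _ _ h2
  have h4 : ∑ S ∈ B, exp (-(l * D S)) ≤ ∑ S ∈ P.powerset, exp (-(l * D S)) :=
    sum_le_sum_of_subset_of_nonneg (filter_subset _ _) fun _ _ _ => (exp_pos _).le
  rw [nsmul_eq_mul] at h3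
  have h5 := h3.trans (h4.trans hm)
  have h6 : (2 : ℝ) ^ P.card * exp (-((∑ S ∈ P.powerset, l * D S) / 2 ^ P.card) +
      (l * A) ^ 2 * P.card / 8) ≤ 2 ^ P.card * exp (-(c ^ 2 / (2 * A ^ 2) * P.card)) *
        exp (-(l * (c / 2 * P.card))) := by
    rw [mul_assoc, ← exp_add]
    refine mul_le_mul_of_nonneg_left (exp_le_exp.2 ?_) (by positivity)
    have : -(c ^ 2 / (2 * A ^ 2) * P.card) + -(l * (c / 2 * P.card)) =
        -(l * (c * P.card)) + (l * A) ^ 2 * P.card / 8 := by
      rw [hl]; field_simp; ring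
    rw [this]
    linarith
  exact le_of_mul_le_mul_right (h5.trans h6) (exp_pos _)

omit [DecidableEq α] [DecidableEq ι] in
/-- The main counting lemma. -/
theorem card_exact_le :
    ∃ c : ℝ, 0 < c ∧ c ≤ 1 / 2 ∧ ∀ (α ι : Type) [DecidableEq α] [DecidableEq ι]
      (P : Finset α) (J : Finset ι) (e : ι → Finset α),
      (∀ j ∈ J, e j ⊆ P ∧ 2 ≤ (e j).card) → J.card ≤ 3 * P.card →
      ((P.powerset.filter fun S => IsExact J e S).card : ℝ) ≤
        2 * (2 ^ P.card * exp (-(c * P.card))) := by
  set c0 : ℝ := exp (-6) / 2 with hc0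
  have hc0p : 0 < c0 := by positivity
  have hc01 : c0 ≤ 1 / 2 := by
    have : exp (-6 : ℝ) ≤ 1 := exp_le_one_iff.2 (by norm_num)
    rw [hc0]; linarith
  obtain ⟨ε, hε, hsmall⟩ := small_subsets (c0 / 24) (by positivity)
  obtain ⟨A, hA⟩ := exists_nat_ge (max 1 (1 / (3 * ε)))
  have hA1 : (1 : ℝ) ≤ A := (le_max_left _ _).trans hA
  have hA2 : 1 / (3 * ε) ≤ A := (le_max_right _ _).trans hA
  refine ⟨min (c0 ^ 2 / (2 * A ^ 2)) (c0 / 8), lt_min (by positivity) (by positivity),
    (min_le_right _ _).trans (by linarith), ?_⟩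
  intro α ι _ _ P J e he hJ
  set c := min (c0 ^ 2 / (2 * A ^ 2)) (c0 / 8) with hc
  set B1 := P.powerset.filter fun S =>
    (S.card : ℝ) - best (J.filter fun j => (e j).card ≤ A) e S ≤ exp (-6) / 4 * P.card with hB1
  set Rs := (J.powerset.filter fun R => (R.card : ℝ) ≤ ε * (3 * P.card)).filter
    fun R => exp (-6) / 4 * P.card ≤ ((R.biUnion e).card : ℝ) with hRs
  set B2 := Rs.biUnion fun R => P.powerset.filter fun S => R.biUnion e ⊆ S with hB2
  have hsub : (P.powerset.filter fun S => IsExact J e S) ⊆ B1 ∪ B2 := by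
    intro S hS
    obtain ⟨hSP, M, hMJ, hd, rfl⟩ := mem_filter.1 hS
    set Ml := M.filter fun j => ¬ (e j).card ≤ A with hMl
    have hdl : (Ml : Set ι).PairwiseDisjoint e := hd.subset (coe_subset.2 (filter_subset _ _))
    have hsplit : (M.biUnion e).card =
        ∑ j ∈ M.filter (fun j => (e j).card ≤ A), (e j).card + (Ml.biUnion e).card := by
      rw [card_biUnion hd, card_biUnion hdl, sum_filter_add_sum_filter_not]
    by_cases ht : exp (-6) / 4 * P.card ≤ ((Ml.biUnion e).card : ℝ)
    · refine mem_union_right _ (mem_biUnion.2 ⟨Ml, ?_, mem_filter.2 ⟨hSP, ?_⟩⟩)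
      · refine mem_filter.2 ⟨mem_filter.2 ⟨mem_powerset.2 ((filter_subset _ _).trans hMJ), ?_⟩, ht⟩
        have h1 : Ml.card • A ≤ ∑ j ∈ Ml, (e j).card :=
          card_nsmul_le_sum _ _ _ fun j hj => (not_le.1 (mem_filter.1 hj).2).le
        rw [← card_biUnion hdl, smul_eq_mul] at h1
        have h2 : (M.biUnion e).card ≤ P.card := card_le_card (mem_powerset.1 hSP)
        have h3 : Ml.card * A ≤ P.card := by omega
        have h4 : (Ml.card : ℝ) * A ≤ P.card := by exact_mod_cast h3
        have h5 : 1 ≤ 3 * ε * A := by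
          rw [div_le_iff₀ (by positivity)] at hA2; linarith
        have h6 : (0 : ℝ) ≤ Ml.card := Nat.cast_nonneg _
        nlinarith
      · exact biUnion_subset_biUnion_of_subset_left _ (filter_subset _ _)
    · refine mem_union_left _ (mem_filter.2 ⟨hSP, ?_⟩)
      have h1 : ∑ j ∈ M.filter (fun j => (e j).card ≤ A), (e j).card ≤
          best (J.filter fun j => (e j).card ≤ A) e (M.biUnion e) := by
        refine le_sup (f := fun M => ∑ j ∈ M, (e j).card) ?_
        simp only [packs, mem_filter, mem_powerset]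
        exact ⟨filter_subset_filter _ hMJ, hd.subset (coe_subset.2 (filter_subset _ _)),
          fun j hj => subset_biUnion_of_mem e hj.1⟩
      have h2 : (M.biUnion e).card ≤
          best (J.filter fun j => (e j).card ≤ A) e (M.biUnion e) + (Ml.biUnion e).card := by
        omega
      have h3 : ((M.biUnion e).card : ℝ) ≤
          best (J.filter fun j => (e j).card ≤ A) e (M.biUnion e) + (Ml.biUnion e).card := by
        exact_mod_cast h2
      linarith [not_le.1 ht]
  have hN : (0 : ℝ) ≤ P.card := Nat.cast_nonneg _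
  have hb1 : (B1.card : ℝ) ≤ 2 ^ P.card * exp (-(c * P.card)) := by
    refine (card_small_deficiency P J e he hJ A (by exact_mod_cast hA1)).trans ?_
    refine mul_le_mul_of_nonneg_left (exp_le_exp.2 (neg_le_neg ?_)) (by positivity)
    exact mul_le_mul_of_nonneg_right (min_le_left _ _) hN
  have hb2 : (B2.card : ℝ) ≤ 2 ^ P.card * exp (-(c * P.card)) := by
    have h1 : (B2.card : ℝ) ≤
        ∑ R ∈ Rs, ((P.powerset.filter fun S => R.biUnion e ⊆ S).card : ℝ) := by
      exact_mod_cast card_biUnion_le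
    have h2 : ∀ R ∈ Rs, ((P.powerset.filter fun S => R.biUnion e ⊆ S).card : ℝ) ≤
        2 ^ P.card * exp (-(c0 / 4 * P.card)) := by
      intro R hR
      obtain ⟨hR1, hR2⟩ := mem_filter.1 hR
      have hRJ := mem_powerset.1 (mem_filter.1 hR1).1
      rw [card_superset (biUnion_subset.2 fun j hj => (he j (hRJ hj)).1), div_eq_mul_inv]
      refine mul_le_mul_of_nonneg_left ?_ (by positivity)
      rw [exp_neg]
      refine inv_anti₀ (exp_pos _) ?_
      have h3 : exp (1 / 2 : ℝ) ≤ 2 := by
        have := Real.exp_one_lt_d9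
        have h4 : exp (1 / 2 : ℝ) * exp (1 / 2) = exp 1 := by rw [← exp_add]; norm_num
        nlinarith [exp_pos (1 / 2 : ℝ)]
      calc exp (c0 / 4 * P.card) ≤ exp (((R.biUnion e).card : ℝ) * (1 / 2)) := by
            refine exp_le_exp.2 ?_
            have : c0 / 4 * P.card = exp (-6) / 4 * P.card * (1 / 2) := by rw [hc0]; ring
            rw [this]; linarith
        _ = exp (1 / 2) ^ (R.biUnion e).card := exp_nat_mul _ _
        _ ≤ 2 ^ (R.biUnion e).card := by gcongr
    have h3 : (Rs.card : ℝ) ≤ exp (c0 / 24 * (3 * P.card)) := by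
      refine le_trans ?_ (hsmall ι J (3 * P.card) (by exact_mod_cast hJ))
      exact Nat.cast_le.2 (card_le_card (filter_subset _ _))
    have h4 := sum_le_card_nsmul _ _ _ h2
    rw [nsmul_eq_mul] at h4
    refine h1.trans (h4.trans ?_)
    calc (Rs.card : ℝ) * (2 ^ P.card * exp (-(c0 / 4 * P.card)))
        ≤ exp (c0 / 24 * (3 * P.card)) * (2 ^ P.card * exp (-(c0 / 4 * P.card))) := by gcongr
      _ = 2 ^ P.card * exp (-(c0 / 8 * P.card)) := by
          rw [mul_left_comm, ← exp_add]; congr 2; ring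
      _ ≤ _ := by
          refine mul_le_mul_of_nonneg_left (exp_le_exp.2 (neg_le_neg ?_)) (by positivity)
          exact mul_le_mul_of_nonneg_right (min_le_right _ _) hN
  have h5 : ((P.powerset.filter fun S => IsExact J e S).card : ℝ) ≤ B1.card + B2.card := by
    exact_mod_cast (card_le_card hsub).trans (card_union_le _ _)
  linarith

end Pool.Agent.P.MP_48c1a1_co
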