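import Mathlib

/-!
Counting lemmas on the discrete cube: an exponential moment bound for functions with bounded
differences, a product form of the Harris-Kleitman inequality, and a bound on the number of small
subsets.
-/

set_option autoImplicit false

namespace Pool.Agent.P.MP_48c1a1_co

open Finset Real

/-- Exponential moment bound for a function with bounded differences on the cube. -/
theorem cube_mgf {α : Type} [DecidableEq α] (L : ℝ) (s : Finset α) :
    ∀ f : Finset α → ℝ, (∀ S x, x ∉ S → |f (insert x S) - f S| ≤ L) →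
      ∑ S ∈ s.powerset, exp (-f S) ≤
        2 ^ s.card * exp (-((∑ S ∈ s.powerset, f S) / 2 ^ s.card) + L ^ 2 * s.card / 8) := by
  induction s using Finset.induction_on with
  | empty => intro f _; simp
  | insert a s ha ih =>
    intro f hf
    set h : Finset α → ℝ := fun S => (f (S.erase a) + f (insert a S)) / 2 with hh
    have hLip : ∀ S x, x ∉ S → |h (insert x S) - h S| ≤ L := by
      intro S x hx
      by_cases hxa : x = a
      · subst hxa
        have h0 : (0 : ℝ) ≤ L := (abs_nonneg _).trans (hf ∅ x (by simp))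
        have e1 : (insert x S).erase x = S.erase x := by
          rw [erase_insert hx, erase_eq_of_notMem hx]
        have e2 : insert x (insert x S) = insert x S := insert_idem _ _
        simp only [hh, e1, e2, sub_self, abs_zero]
        exact h0
      · have e1 : (insert x S).erase a = insert x (S.erase a) := erase_insert_of_ne hxa
        have e2 : insert a (insert x S) = insert x (insert a S) := insert_comm _ _ _
        have h1 := hf (S.erase a) x (fun hm => hx (mem_of_mem_erase hm))
        have h2 := hf (insert a S) x (by simp [hxa, hx])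
        simp only [hh, e1, e2]
        rw [abs_le] at h1 h2 ⊢
        constructor <;> linarith [h1.1, h1.2, h2.1, h2.2]
    have hS : ∀ S ∈ s.powerset, h S = (f S + f (insert a S)) / 2 := by
      intro S hS
      have : a ∉ S := fun hm => ha (mem_powerset.1 hS hm)
      simp only [hh, erase_eq_of_notMem this]
    have key : ∀ S ∈ s.powerset,
        exp (-f S) + exp (-f (insert a S)) ≤ 2 * exp (L ^ 2 / 8) * exp (-h S) := by
      intro S hSs
      have hnot : a ∉ S := fun hm => ha (mem_powerset.1 hSs hm)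
      have h1 := hf S a hnot
      set d : ℝ := (f (insert a S) - f S) / 2 with hd
      have e1 : -f S = -h S + d := by rw [hS S hSs, hd]; ring
      have e2 : -f (insert a S) = -h S + -d := by rw [hS S hSs, hd]; ring
      have hc : cosh d ≤ exp (L ^ 2 / 8) := by
        refine (cosh_le_exp_half_sq d).trans (exp_le_exp.2 ?_)
        have : (f (insert a S) - f S) ^ 2 ≤ L ^ 2 := sq_le_sq' (abs_le.1 h1).1 (abs_le.1 h1).2
        rw [hd]; nlinarith
      rw [e1, e2, exp_add, exp_add]
      rw [cosh_eq] at hc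
      have hp := exp_pos (-h S)
      nlinarith
    rw [sum_powerset_insert ha, sum_powerset_insert ha, ← sum_add_distrib, ← sum_add_distrib,
      card_insert_of_notMem ha]
    refine (sum_le_sum key).trans ?_
    rw [← mul_sum]
    have hsum : ∑ S ∈ s.powerset, (f S + f (insert a S)) = 2 * ∑ S ∈ s.powerset, h S := by
      rw [mul_sum]
      refine sum_congr rfl fun S hSs => ?_
      rw [hS S hSs]; ring
    rw [hsum]
    have := ih h hLip
    have hpos : (0 : ℝ) < 2 * exp (L ^ 2 / 8) := by positivity
    refine (mul_le_mul_of_nonneg_left this hpos.le).trans (le_of_eq ?_)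
    have e3 : -(2 * (∑ S ∈ s.powerset, h S) / 2 ^ (s.card + 1)) + L ^ 2 * ((s.card + 1 : ℕ) : ℝ) / 8
        = L ^ 2 / 8 + (-((∑ S ∈ s.powerset, h S) / 2 ^ s.card) + L ^ 2 * s.card / 8) := by
      push_cast
      field_simp
      ring
    rw [e3, exp_add (L ^ 2 / 8), pow_succ]
    ring

/-- The number of subsets of `s` containing a fixed subset `g`. -/
theorem card_superset {α : Type} [DecidableEq α] {s g : Finset α} (hg : g ⊆ s) :
    ((s.powerset.filter fun S => g ⊆ S).card : ℝ) = 2 ^ s.card / 2 ^ g.card := by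
  have : (s.powerset.filter fun S => g ⊆ S) = Finset.Icc g s := by
    ext S; simp [and_comm]
  rw [this, card_Icc_finset hg]
  push_cast
  rw [eq_div_iff (by positivity), ← pow_add, Nat.sub_add_cancel (card_le_card hg)]

/-- Product form of the Harris-Kleitman inequality. -/
theorem harris_prod {α ι : Type} [DecidableEq α] [DecidableEq ι] (s : Finset α)
    (g : ι → Finset α) (T : Finset ι) (hg : ∀ j ∈ T, g j ⊆ s) :
    2 ^ s.card * ∏ j ∈ T, (1 - 1 / (2 : ℝ) ^ (g j).card) ≤
      ((s.powerset.filter fun S => ∀ j ∈ T, ¬ g j ⊆ S).card : ℝ) := by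
  induction T using Finset.induction_on with
  | empty => simp
  | insert i T hi ih =>
    have ih' := ih fun j hj => hg j (mem_insert_of_mem hj)
    set 𝒜 := s.powerset.filter fun S => ¬ g i ⊆ S with h𝒜
    set ℬ := s.powerset.filter fun S => ∀ j ∈ T, ¬ g j ⊆ S with hℬ
    have hA : IsLowerSet (𝒜 : Set (Finset α)) := by
      intro S S' hSS' hS
      simp only [h𝒜, coe_filter, mem_powerset, Set.mem_ofPred_eq] at hS ⊢
      exact ⟨Subset.trans hSS' hS.1, fun h => hS.2 (Subset.trans h hSS')⟩
    have hB : IsLowerSet (ℬ : Set (Finset α)) := by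
      intro S S' hSS' hS
      simp only [hℬ, coe_filter, mem_powerset, Set.mem_ofPred_eq] at hS ⊢
      exact ⟨Subset.trans hSS' hS.1, fun j hj h => hS.2 j hj (Subset.trans h hSS')⟩
    have hk := hA.le_card_inter_finset' (s := s) hB
      (fun t ht => mem_powerset.1 (mem_filter.1 ht).1)
      (fun t ht => mem_powerset.1 (mem_filter.1 ht).1)
    have hinter : 𝒜 ∩ ℬ = s.powerset.filter fun S => ∀ j ∈ insert i T, ¬ g j ⊆ S := by
      ext S
      simp only [h𝒜, hℬ, mem_inter, mem_filter, forall_mem_insert]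
      tauto
    have hcardA : (𝒜.card : ℝ) = 2 ^ s.card * (1 - 1 / (2 : ℝ) ^ (g i).card) := by
      have h1 := card_filter_add_card_filter_not (s := s.powerset) (fun S => g i ⊆ S)
      have h2 := card_superset (hg i (mem_insert_self _ _))
      have h3 : (((s.powerset.filter fun S => g i ⊆ S).card : ℝ) + 𝒜.card) = 2 ^ s.card := by
        rw [card_powerset] at h1
        exact_mod_cast h1
      rw [h2] at h3
      have : (𝒜.card : ℝ) = 2 ^ s.card - 2 ^ s.card / 2 ^ (g i).card := by linarith
      rw [this]; ring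
    rw [← hinter, prod_insert hi]
    have hk' : (𝒜.card : ℝ) * ℬ.card ≤ 2 ^ s.card * ((𝒜 ∩ ℬ).card : ℝ) := by exact_mod_cast hk
    have hp : (0 : ℝ) < 2 ^ s.card := by positivity
    have hnn : (0 : ℝ) ≤ 1 - 1 / (2 : ℝ) ^ (g i).card := by
      have : (1 : ℝ) ≤ 2 ^ (g i).card := one_le_pow₀ (by norm_num)
      have : 1 / (2 : ℝ) ^ (g i).card ≤ 1 := by rw [div_le_one (by positivity)]; exact this
      linarith
    refine le_of_mul_le_mul_left (le_trans ?_ hk') hp
    rw [hcardA]
    calc (2 : ℝ) ^ s.card * (2 ^ s.card * ((1 - 1 / (2 : ℝ) ^ (g i).card) *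
          ∏ j ∈ T, (1 - 1 / (2 : ℝ) ^ (g j).card)))
        = 2 ^ s.card * (1 - 1 / (2 : ℝ) ^ (g i).card) *
          (2 ^ s.card * ∏ j ∈ T, (1 - 1 / (2 : ℝ) ^ (g j).card)) := by ring
      _ ≤ _ := mul_le_mul_of_nonneg_left ih' (mul_nonneg hp.le hnn)

/-- There are few small subsets. -/
theorem small_subsets (η : ℝ) (hη : 0 < η) :
    ∃ ε : ℝ, 0 < ε ∧ ∀ (ι : Type) (J : Finset ι) (N : ℝ), (J.card : ℝ) ≤ N →
      ((J.powerset.filter fun R => (R.card : ℝ) ≤ ε * N).card : ℝ) ≤ exp (η * N) := by
  set y : ℝ := min (η / 2) (1 / 2) with hy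
  have hy0 : 0 < y := lt_min (by positivity) (by norm_num)
  have hy1 : y < 1 := (min_le_right _ _).trans_lt (by norm_num)
  have hyη : y ≤ η / 2 := min_le_left _ _
  have hlog : 0 < -log y := by have := log_neg hy0 hy1; linarith
  refine ⟨η / 2 / (-log y), by positivity, fun ι J N hJ => ?_⟩
  have hN : 0 ≤ N := le_trans (Nat.cast_nonneg _) hJ
  have h1 : ∑ R ∈ J.powerset, y ^ R.card ≤ exp (η / 2 * N) := by
    have : ∑ R ∈ J.powerset, y ^ R.card = ∏ _j ∈ J, (1 + y) := by
      rw [prod_one_add]
      simp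
    rw [this, prod_const]
    calc (1 + y) ^ J.card ≤ exp y ^ J.card := by
          gcongr; linarith [add_one_le_exp y]
      _ = exp (y * J.card) := by rw [← exp_nat_mul, mul_comm]
      _ ≤ exp (η / 2 * N) := by gcongr
  have h2 : ∀ R ∈ J.powerset.filter fun R => (R.card : ℝ) ≤ η / 2 / (-log y) * N,
      exp (-(η / 2 * N)) ≤ y ^ R.card := by
    intro R hR
    have hR' := (mem_filter.1 hR).2
    have : y ^ R.card = exp (log y * R.card) := by
      rw [mul_comm, exp_nat_mul, exp_log hy0]
    rw [this]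
    refine exp_le_exp.2 ?_
    have h3 : (-log y) * R.card ≤ (-log y) * (η / 2 / (-log y) * N) :=
      mul_le_mul_of_nonneg_left hR' hlog.le
    have h4 : (-log y) * (η / 2 / (-log y) * N) = η / 2 * N := by
      rw [← mul_assoc, mul_div_cancel₀ _ hlog.ne']
    linarith
  have h3 := card_nsmul_le_sum _ _ _ h2
  have h4 : ∑ R ∈ J.powerset.filter (fun R => (R.card : ℝ) ≤ η / 2 / (-log y) * N), y ^ R.card
      ≤ ∑ R ∈ J.powerset, y ^ R.card :=
    sum_le_sum_of_subset_of_nonneg (filter_subset _ _) fun _ _ _ => by positivity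
  rw [nsmul_eq_mul] at h3
  have h5 := h3.trans (h4.trans h1)
  have h6 : exp (η * N) = exp (η / 2 * N) / exp (-(η / 2 * N)) := by
    rw [← exp_sub]; congr 1; ring
  rw [h6, le_div_iff₀ (exp_pos _)]
  exact h5

/-- Counting sets by their trace on a subset. -/
theorem card_trace {α : Type} [DecidableEq α] {Q P : Finset α} (hPQ : P ⊆ Q)
    (ℬ : Finset (Finset α)) :
    ((Q.powerset.filter fun S => S ∩ P ∈ ℬ).card : ℝ) ≤ ℬ.card * (2 ^ Q.card / 2 ^ P.card) := by
  have h1 : (Q.powerset.filter fun S => S ∩ P ∈ ℬ).card ≤ (ℬ ×ˢ (Q \ P).powerset).card := by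
    refine card_le_card_of_injOn (fun S => (S ∩ P, S \ P)) ?_ ?_
    · intro S hS
      have hS' := mem_filter.1 (mem_coe.1 hS)
      exact mem_coe.2 (mem_product.2 ⟨hS'.2,
        mem_powerset.2 (sdiff_subset_sdiff (mem_powerset.1 hS'.1) (Subset.refl _))⟩)
    · intro S _ S' _ h
      have h1 : S ∩ P = S' ∩ P := congrArg Prod.fst h
      have h2 : S \ P = S' \ P := congrArg Prod.snd h
      rw [← sdiff_union_inter S P, ← sdiff_union_inter S' P, h1, h2]
  rw [card_product, card_powerset, card_sdiff_of_subset hPQ] at h1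
  have h2 : (2 : ℝ) ^ Q.card / 2 ^ P.card = 2 ^ (Q.card - P.card) := by
    rw [div_eq_iff (by positivity), ← pow_add, Nat.sub_add_cancel (card_le_card hPQ)]
  rw [h2]
  exact_mod_cast h1

end Pool.Agent.P.MP_48c1a1_co
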