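import Mathlib

set_option autoImplicit false

namespace Pool.Agent.P.MP_48c1a1_co

/-- The pairs `(A i, B i)`, `i < r`, partition the edge set of `G` into `r` bicliques: each pair
consists of two disjoint nonempty vertex sets completely joined in `G`, and every edge of `G`
joins `A i` to `B i` for exactly one `i`. -/
def IsBicliquePartition {V : Type} (G : SimpleGraph V) (r : ℕ) (A B : Fin r → Set V) : Prop :=
  (∀ i, (A i).Nonempty ∧ (B i).Nonempty ∧ Disjoint (A i) (B i) ∧
    ∀ a ∈ A i, ∀ b ∈ B i, G.Adj a b) ∧
  ∀ v w, G.Adj v w → ∃! i, (v ∈ A i ∧ w ∈ B i) ∨ (w ∈ A i ∧ v ∈ B i)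

/-- The biclique partition number: the least `r` such that the edge set of `G` is partitioned into
`r` bicliques. -/
noncomputable def bc {V : Type} (G : SimpleGraph V) : ℕ :=
  sInf {r : ℕ | ∃ A B : Fin r → Set V, IsBicliquePartition G r A B}

end Pool.Agent.P.MP_48c1a1_co
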