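import Pool.Agent.P.MP_48c1a1_co.Defs
import Pool.Agent.P.MP_48c1a1_co.Cover

/-!
The deterministic part: removing stars, encoding the small sides, and the Ramsey bound.
-/

set_option autoImplicit false
set_option linter.unusedSectionVars false

namespace Pool.Agent.P.MP_48c1a1_co

open Finset

open scoped Classical

variable {V : Type} [Fintype V] [DecidableEq V]

theorem exists_partition (G : SimpleGraph V) :
    ∃ (r : ℕ) (A B : Fin r → Set V), IsBicliquePartition G r A B := by
  let φ : G.edgeSet ≃ Fin (Fintype.card G.edgeSet) := Fintype.equivFin _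
  have hout : ∀ z : Sym2 V, s(z.out.1, z.out.2) = z := fun z => Quot.out_eq z
  have hadj : ∀ i, G.Adj (φ.symm i).1.out.1 (φ.symm i).1.out.2 := by
    intro i
    rw [← SimpleGraph.mem_edgeSet, hout]
    exact (φ.symm i).2
  refine ⟨_, fun i => {(φ.symm i).1.out.1}, fun i => {(φ.symm i).1.out.2}, fun i => ?_, ?_⟩
  · refine ⟨Set.singleton_nonempty _, Set.singleton_nonempty _,
      Set.disjoint_singleton.2 (hadj i).ne, ?_⟩
    rintro a rfl b rfl
    exact hadj i
  · intro v w hvw
    refine ⟨φ ⟨s(v, w), hvw⟩, ?_, ?_⟩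
    · simp only [Equiv.symm_apply_apply, Set.mem_singleton_iff]
      have := hout s(v, w)
      rcases Sym2.eq_iff.1 this with h | h
      · exact Or.inl ⟨h.1.symm, h.2.symm⟩
      · exact Or.inr ⟨h.1.symm, h.2.symm⟩
    · intro i hi
      rw [← Equiv.symm_apply_eq]
      apply Subtype.ext
      simp only [Set.mem_singleton_iff] at hi
      rw [← hout (φ.symm i).1]
      rcases hi with ⟨h1, h2⟩ | ⟨h1, h2⟩
      · rw [← h1, ← h2]
      · rw [← h1, ← h2]; exact Sym2.eq_swap

theorem exists_partition_bc (G : SimpleGraph V) :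
    ∃ A B : Fin (bc G) → Set V, IsBicliquePartition G (bc G) A B :=
  Nat.sInf_mem (s := {r : ℕ | ∃ A B : Fin r → Set V, IsBicliquePartition G r A B})
    (exists_partition G)

/-- Removing stars. -/
theorem strip {ι : Type} [DecidableEq ι] (G : SimpleGraph V) (A B : ι → Set V) (k : ℕ) (m : ℕ) :
    ∀ (I : Finset ι) (U : Finset V), I.card = m → I.card + k ≤ U.card →
      (∀ v ∈ U, ∀ w ∈ U, G.Adj v w → ∃ i ∈ I, (v ∈ A i ∧ w ∈ B i) ∨ (w ∈ A i ∧ v ∈ B i)) →
      ∃ (I' : Finset ι) (U' : Finset V), I'.card + k ≤ U'.card ∧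
        (∀ v ∈ U', ∀ w ∈ U', G.Adj v w →
          ∃ i ∈ I', (v ∈ A i ∧ w ∈ B i) ∨ (w ∈ A i ∧ v ∈ B i)) ∧
        ∀ i ∈ I', 2 ≤ (U'.filter (· ∈ A i)).card ∧ 2 ≤ (U'.filter (· ∈ B i)).card := by
  induction m with
  | zero =>
    intro I U hI hk hc
    refine ⟨I, U, hk, hc, fun i hi => ?_⟩
    rw [card_eq_zero] at hI
    simp [hI] at hi
  | succ m ih =>
    intro I U hI hk hc
    by_cases hall : ∀ i ∈ I, 2 ≤ (U.filter (· ∈ A i)).card ∧ 2 ≤ (U.filter (· ∈ B i)).card
    · exact ⟨I, U, hk, hc, hall⟩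
    · obtain ⟨i, hi⟩ := not_forall.1 hall
      obtain ⟨hiI, hi⟩ := Classical.not_imp.1 hi
      have hX : ∃ X : Finset V, X.card ≤ 1 ∧
          ((∀ v ∈ U, v ∈ A i → v ∈ X) ∨ (∀ v ∈ U, v ∈ B i → v ∈ X)) := by
        by_cases h1 : 2 ≤ (U.filter (· ∈ A i)).card
        · have h2 : ¬ 2 ≤ (U.filter (· ∈ B i)).card := fun h2 => hi ⟨h1, h2⟩
          exact ⟨U.filter (· ∈ B i), by omega, Or.inr fun v hv hb => mem_filter.2 ⟨hv, hb⟩⟩
        · exact ⟨U.filter (· ∈ A i), by omega, Or.inl fun v hv hb => mem_filter.2 ⟨hv, hb⟩⟩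
      obtain ⟨X, hX1, hX⟩ := hX
      have hce := card_erase_add_one hiI
      refine ih (I.erase i) (U \ X) (by omega) ?_ ?_
      · have := le_card_sdiff X U
        omega
      · intro v hv w hw hvw
        obtain ⟨hvU, hvX⟩ := mem_sdiff.1 hv
        obtain ⟨hwU, hwX⟩ := mem_sdiff.1 hw
        obtain ⟨j, hj, hor⟩ := hc v hvU w hwU hvw
        refine ⟨j, mem_erase.2 ⟨?_, hj⟩, hor⟩
        rintro rfl
        rcases hX with hX | hX <;> rcases hor with hor | hor
        · exact hvX (hX v hvU hor.1)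
        · exact hwX (hX w hwU hor.1)
        · exact hwX (hX w hwU hor.2)
        · exact hvX (hX v hvU hor.2)

/-- The row of `h` in the relation `R`. -/
noncomputable def row (R : Finset (V × V)) (h : V) : Finset V :=
  (R.filter fun p => p.1 = h).image Prod.snd

/-- The index set of the hyperedges attached to `R`. -/
noncomputable def idx (U : Finset V) (R : Finset (V × V)) : Finset (V × V) :=
  (U ×ˢ U).filter fun p => 2 ≤ (row R p.1).card ∧ p.2 ∉ row R p.1

/-- The star from `p.2` to the row of `p.1`. -/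
noncomputable def hyp (R : Finset (V × V)) (p : V × V) : Finset (Sym2 V) :=
  (row R p.1).image fun v => s(v, p.2)

/-- The unordered pairs of distinct points of `U`. -/
noncomputable def pairs (U : Finset V) : Finset (Sym2 V) := U.offDiag.image Sym2.mk.uncurry

theorem mem_pairs {U : Finset V} {v w : V} : s(v, w) ∈ pairs U ↔ v ∈ U ∧ w ∈ U ∧ v ≠ w := by
  simp only [pairs, mem_image, mem_offDiag, Prod.exists, Function.uncurry_apply_pair]
  constructor
  · rintro ⟨a, b, ⟨ha, hb, hab⟩, h⟩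
    rcases Sym2.eq_iff.1 h with ⟨rfl, rfl⟩ | ⟨rfl, rfl⟩
    · exact ⟨ha, hb, hab⟩
    · exact ⟨hb, ha, hab.symm⟩
  · intro h
    exact ⟨v, w, h, rfl⟩

theorem card_pairs (U : Finset V) : (pairs U).card = U.card.choose 2 := Sym2.card_image_offDiag U

theorem pairs_mono {U U' : Finset V} (h : U ⊆ U') : pairs U ⊆ pairs U' :=
  image_subset_image (offDiag_mono h)

theorem hyp_ok {U : Finset V} {R : Finset (V × V)} (hR : R ⊆ U ×ˢ U) :
    ∀ p ∈ idx U R, hyp R p ⊆ pairs U ∧ 2 ≤ (hyp R p).card := by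
  intro p hp
  obtain ⟨hpU, h2, hn⟩ := mem_filter.1 hp
  constructor
  · intro z hz
    obtain ⟨v, hv, rfl⟩ := mem_image.1 hz
    refine mem_pairs.2 ⟨?_, (mem_product.1 hpU).2, fun h => hn (h ▸ hv)⟩
    obtain ⟨q, hq, rfl⟩ := mem_image.1 hv
    exact (mem_product.1 (hR (mem_filter.1 hq).1)).2
  · rw [hyp, card_image_of_injective _ fun v v' h => Sym2.congr_left.1 h]
    exact h2

/-- A short biclique partition yields a vertex set whose edges form a disjoint union of stars
taken from a sparse relation. -/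
theorem encode (G : SimpleGraph V) [DecidableRel G.Adj] {r : ℕ} {A B : Fin r → Set V}
    (hP : IsBicliquePartition G r A B) (k T : ℕ) (hk : r + k ≤ Fintype.card V) :
    ∃ U : Finset V, k ≤ U.card ∧ ∃ R ⊆ U ×ˢ U, T * R.card ≤ U.card ^ 2 + T ^ 2 * U.card ∧
      IsExact (idx U R) (hyp R) (G.edgeFinset ∩ pairs U) := by
  obtain ⟨I, U, hIU, hc, h2⟩ := strip G A B k _ univ univ rfl (by simpa using hk)
    (fun v _ w _ hvw => by
      obtain ⟨i, hi, -⟩ := hP.2 v w hvw
      exact ⟨i, mem_univ _, hi⟩)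
  -- the two sides, the smaller one first
  obtain ⟨a, b, hab⟩ : ∃ a b : Fin r → Finset V, ∀ i, (a i).card ≤ (b i).card ∧
      ((a i = U.filter (· ∈ A i) ∧ b i = U.filter (· ∈ B i)) ∨
        (a i = U.filter (· ∈ B i) ∧ b i = U.filter (· ∈ A i))) := by
    have : ∀ i, ∃ q : Finset V × Finset V, q.1.card ≤ q.2.card ∧
        ((q.1 = U.filter (· ∈ A i) ∧ q.2 = U.filter (· ∈ B i)) ∨
          (q.1 = U.filter (· ∈ B i) ∧ q.2 = U.filter (· ∈ A i))) := by
      intro i
      rcases le_total (U.filter (· ∈ A i)).card (U.filter (· ∈ B i)).card with h | h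
      · exact ⟨(_, _), h, Or.inl ⟨rfl, rfl⟩⟩
      · exact ⟨(_, _), h, Or.inr ⟨rfl, rfl⟩⟩
    choose q hq using this
    exact ⟨fun i => (q i).1, fun i => (q i).2, hq⟩
  have haU : ∀ i, a i ⊆ U := fun i => by
    rcases (hab i).2 with h | h <;> rw [h.1] <;> exact filter_subset _ _
  have hbU : ∀ i, b i ⊆ U := fun i => by
    rcases (hab i).2 with h | h <;> rw [h.2] <;> exact filter_subset _ _
  have ha2 : ∀ i ∈ I, 2 ≤ (a i).card := fun i hi => by
    rcases (hab i).2 with h | h <;> rw [h.1]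
    · exact (h2 i hi).1
    · exact (h2 i hi).2
  have hor : ∀ i v w, v ∈ a i → w ∈ b i → (v ∈ A i ∧ w ∈ B i) ∨ (w ∈ A i ∧ v ∈ B i) := by
    intro i v w hv hw
    rcases (hab i).2 with h | h <;> rw [h.1] at hv <;> rw [h.2] at hw
    · exact Or.inl ⟨(mem_filter.1 hv).2, (mem_filter.1 hw).2⟩
    · exact Or.inr ⟨(mem_filter.1 hw).2, (mem_filter.1 hv).2⟩
  have hadj : ∀ i v w, v ∈ a i → w ∈ b i → G.Adj v w := by
    intro i v w hv hw
    rcases hor i v w hv hw with h | h
    · exact (hP.1 i).2.2.2 v h.1 w h.2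
    · exact ((hP.1 i).2.2.2 w h.1 v h.2).symm
  have huniq : ∀ i j v w v' w', v ∈ a i → w ∈ b i → v' ∈ a j → w' ∈ b j →
      s(v, w) = s(v', w') → i = j ∧ w = w' := by
    intro i j v w v' w' hv hw hv' hw' h
    have h1 := hor i v w hv hw
    have h3 := hor j v' w' hv' hw'
    rcases Sym2.eq_iff.1 h with ⟨rfl, rfl⟩ | ⟨rfl, rfl⟩
    · exact ⟨(hP.2 v w (hadj i v w hv hw)).unique h1 h3, rfl⟩
    · have hij := (hP.2 v w (hadj i v w hv hw)).unique h1 h3.symm
      subst hij
      exact absurd (hadj i v v hv hw') G.irrefl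
  have hcov : ∀ v ∈ U, ∀ w ∈ U, G.Adj v w →
      ∃ i ∈ I, (v ∈ a i ∧ w ∈ b i) ∨ (w ∈ a i ∧ v ∈ b i) := by
    intro v hv w hw hvw
    obtain ⟨i, hi, h⟩ := hc v hv w hw hvw
    refine ⟨i, hi, ?_⟩
    rcases (hab i).2 with h' | h' <;> rw [h'.1, h'.2] <;> simp only [mem_filter] <;> tauto
  -- an injection of the index set into `U`
  obtain ⟨φ, hφU, hφ⟩ : ∃ φ : I → V, (∀ i, φ i ∈ U) ∧ Function.Injective φ := by
    obtain ⟨f⟩ := Function.Embedding.nonempty_of_card_le (α := I) (β := U)
      (by simp only [Fintype.card_coe]; omega)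
    exact ⟨fun i => (f i).1, fun i => (f i).2, Subtype.val_injective.comp f.injective⟩
  set R : Finset (V × V) := univ.biUnion fun i : I => (a i).image fun v => (φ i, v) with hR
  have hrow : ∀ i : I, row R (φ i) = a i := by
    intro i
    ext v
    simp only [row, hR, mem_image, mem_filter, mem_biUnion, mem_univ, true_and]
    constructor
    · rintro ⟨p, ⟨⟨j, v', hv', rfl⟩, hj⟩, rfl⟩
      have := hφ hj
      subst this
      exact hv'
    · intro hv
      exact ⟨(φ i, v), ⟨⟨i, v, hv, rfl⟩, rfl⟩, rfl⟩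
  refine ⟨U, by omega, R, ?_, ?_, ?_⟩
  · intro p hp
    obtain ⟨i, -, hp⟩ := mem_biUnion.1 hp
    obtain ⟨v, hv, rfl⟩ := mem_image.1 hp
    exact mem_product.2 ⟨hφU i, haU i hv⟩
  · have h3 : R.card ≤ ∑ i ∈ I, (a i).card := by
      refine card_biUnion_le.trans ?_
      rw [← sum_coe_sort I]
      exact sum_le_sum fun i _ => card_image_le
    have h4 : ∑ i ∈ I, (a i).card * (b i).card ≤ U.card ^ 2 := by
      have hd : (I : Set (Fin r)).PairwiseDisjoint fun i => a i ×ˢ b i := by
        intro i _ j _ hij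
        refine disjoint_left.2 fun p hp hq => hij ?_
        exact (huniq i j p.1 p.2 p.1 p.2 (mem_product.1 hp).1 (mem_product.1 hp).2
          (mem_product.1 hq).1 (mem_product.1 hq).2 rfl).1
      calc ∑ i ∈ I, (a i).card * (b i).card = (I.biUnion fun i => a i ×ˢ b i).card := by
            rw [card_biUnion hd]; simp only [card_product]
        _ ≤ (U ×ˢ U).card :=
            card_le_card (biUnion_subset.2 fun i _ => product_subset_product (haU i) (hbU i))
        _ = U.card ^ 2 := by rw [card_product, sq]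
    calc T * R.card ≤ T * ∑ i ∈ I, (a i).card := Nat.mul_le_mul_left _ h3
      _ = ∑ i ∈ I, T * (a i).card := mul_sum _ _ _
      _ ≤ ∑ i ∈ I, ((a i).card * (b i).card + T ^ 2) := by
          refine sum_le_sum fun i _ => ?_
          have := (hab i).1
          nlinarith [sq_nonneg ((T : ℤ) - (a i).card)]
      _ = ∑ i ∈ I, (a i).card * (b i).card + T ^ 2 * I.card := by
          rw [sum_add_distrib, sum_const, smul_eq_mul, mul_comm]
      _ ≤ U.card ^ 2 + T ^ 2 * U.card := add_le_add h4 (Nat.mul_le_mul_left _ (by omega))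
  · refine ⟨univ.biUnion fun i : I => (b i).image fun w => (φ i, w), ?_, ?_, ?_⟩
    · intro p hp
      obtain ⟨i, -, hp⟩ := mem_biUnion.1 hp
      obtain ⟨w, hw, rfl⟩ := mem_image.1 hp
      refine mem_filter.2 ⟨mem_product.2 ⟨hφU i, hbU i hw⟩, ?_, ?_⟩
      · rw [hrow]; exact ha2 i i.2
      · rw [hrow]; exact fun h => G.irrefl (hadj i w w h hw)
    · intro p hp q hq hpq
      obtain ⟨i, -, hp⟩ := mem_biUnion.1 (mem_coe.1 hp)
      obtain ⟨w, hw, rfl⟩ := mem_image.1 hp
      obtain ⟨j, -, hq⟩ := mem_biUnion.1 (mem_coe.1 hq)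
      obtain ⟨w', hw', rfl⟩ := mem_image.1 hq
      refine disjoint_left.2 fun z hz hz' => hpq ?_
      simp only [hyp, hrow, mem_image] at hz hz'
      obtain ⟨v, hv, rfl⟩ := hz
      obtain ⟨v', hv', h⟩ := hz'
      obtain ⟨hij, hww⟩ := huniq i j v w v' w' hv hw hv' hw' h.symm
      rw [Subtype.ext hij, hww]
    · ext z
      induction z using Sym2.ind with
      | h v w =>
        simp only [mem_inter, SimpleGraph.mem_edgeFinset, SimpleGraph.mem_edgeSet, mem_pairs]
        constructor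
        · rintro ⟨hvw, hv, hw, -⟩
          obtain ⟨i, hi, h | h⟩ := hcov v hv w hw hvw
          · refine mem_biUnion.2 ⟨(φ ⟨i, hi⟩, w), mem_biUnion.2 ⟨⟨i, hi⟩, mem_univ _,
              mem_image.2 ⟨w, h.2, rfl⟩⟩, ?_⟩
            simp only [hyp, hrow, mem_image]
            exact ⟨v, h.1, rfl⟩
          · refine mem_biUnion.2 ⟨(φ ⟨i, hi⟩, v), mem_biUnion.2 ⟨⟨i, hi⟩, mem_univ _,
              mem_image.2 ⟨v, h.2, rfl⟩⟩, ?_⟩
            simp only [hyp, hrow, mem_image]
            exact ⟨w, h.1, Sym2.eq_swap⟩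
        · intro hz
          obtain ⟨p, hp, hz⟩ := mem_biUnion.1 hz
          obtain ⟨i, -, hp⟩ := mem_biUnion.1 hp
          obtain ⟨w', hw', rfl⟩ := mem_image.1 hp
          simp only [hyp, hrow, mem_image] at hz
          obtain ⟨v', hv', h⟩ := hz
          have h5 := hadj i v' w' hv' hw'
          rcases Sym2.eq_iff.1 h with ⟨rfl, rfl⟩ | ⟨rfl, rfl⟩
          · exact ⟨h5, haU i hv', hbU i hw', h5.ne⟩
          · exact ⟨h5.symm, hbU i hw', haU i hv', h5.ne.symm⟩

/-- The Erdos-Szekeres bound. -/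
theorem ramsey (G : SimpleGraph V) (m : ℕ) :
    ∀ (s t : ℕ) (W : Finset V), s + t = m → (s + t).choose s ≤ W.card →
      (∃ X ⊆ W, X.card = s ∧ G.IsIndepSet X) ∨ (∃ X ⊆ W, X.card = t ∧ G.IsClique X) := by
  induction m with
  | zero =>
    intro s t W h _
    exact Or.inl ⟨∅, empty_subset _, by simp; omega, by simp⟩
  | succ m ih =>
    intro s t W h hW
    rcases s with _ | s
    · exact Or.inl ⟨∅, empty_subset _, by simp, by simp⟩
    rcases t with _ | t
    · exact Or.inr ⟨∅, empty_subset _, by simp, by simp⟩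
    have hpos : 0 < W.card := lt_of_lt_of_le (Nat.choose_pos (by omega)) hW
    obtain ⟨v, hv⟩ := card_pos.1 hpos
    have hsplit := card_filter_add_card_filter_not (s := W.erase v) (fun w => G.Adj v w)
    have he := card_erase_add_one hv
    have hch : (s + 1 + (t + 1)).choose (s + 1) =
        (s + (t + 1)).choose s + (s + 1 + t).choose (s + 1) := by
      have e1 : s + 1 + (t + 1) = (s + (t + 1)) + 1 := by ring
      have e2 : s + 1 + t = s + (t + 1) := by ring
      rw [e1, e2, Nat.choose_succ_succ]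
    by_cases h1 : (s + 1 + t).choose (s + 1) ≤ ((W.erase v).filter fun w => G.Adj v w).card
    · rcases ih (s + 1) t _ (by omega) h1 with ⟨X, hX, hc, hi⟩ | ⟨X, hX, hc, hi⟩
      · exact Or.inl ⟨X, hX.trans ((filter_subset _ _).trans (erase_subset _ _)), hc, hi⟩
      · have hvX : v ∉ X := fun hm => notMem_erase v W (mem_filter.1 (hX hm)).1
        refine Or.inr ⟨insert v X,
          insert_subset hv (hX.trans ((filter_subset _ _).trans (erase_subset _ _))),
          by rw [card_insert_of_notMem hvX, hc], ?_⟩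
        rw [coe_insert]
        exact hi.insert fun w hw _ => (mem_filter.1 (hX hw)).2
    · have h2 : (s + (t + 1)).choose s ≤ ((W.erase v).filter fun w => ¬ G.Adj v w).card := by
        omega
      rcases ih s (t + 1) _ (by omega) h2 with ⟨X, hX, hc, hi⟩ | ⟨X, hX, hc, hi⟩
      · have hvX : v ∉ X := fun hm => notMem_erase v W (mem_filter.1 (hX hm)).1
        refine Or.inl ⟨insert v X,
          insert_subset hv (hX.trans ((filter_subset _ _).trans (erase_subset _ _))),
          by rw [card_insert_of_notMem hvX, hc], ?_⟩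
        rw [coe_insert, ← SimpleGraph.isClique_compl] at *
        refine hi.insert fun w hw hne => ?_
        exact (G.compl_adj v w).2 ⟨hne, (mem_filter.1 (hX hw)).2⟩
      · exact Or.inr ⟨X, hX.trans ((filter_subset _ _).trans (erase_subset _ _)), hc, hi⟩

end Pool.Agent.P.MP_48c1a1_co
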