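import Pool.Agent.P.MP_48c1a1_co.Graph

/-!
The union bound.
-/

set_option autoImplicit false
set_option linter.unusedSectionVars false

namespace Pool.Agent.P.MP_48c1a1_co

open Finset Real

open scoped Classical

/-- The exceptional edge patterns on `U`. -/
noncomputable def badOn {V : Type} [DecidableEq V] (ε : ℝ) (U : Finset V) :
    Finset (Finset (Sym2 V)) :=
  insert (pairs U) ((((U ×ˢ U).powerset.filter
    fun R => (R.card : ℝ) ≤ ε * (U.card : ℝ) ^ 2).biUnion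
      fun R => (pairs U).powerset.filter fun S => IsExact (idx U R) (hyp R) S))

theorem sq_le_three_choose {u : ℕ} (hu : 3 ≤ u) : u ^ 2 ≤ 3 * u.choose 2 := by
  induction u, hu using Nat.le_induction with
  | base => decide
  | succ u hu ih =>
    rw [Nat.choose_succ_succ, Nat.choose_one_right]
    nlinarith

theorem exp_half_le_two : exp (1 / 2 : ℝ) ≤ 2 := by
  have := Real.exp_one_lt_d9
  have h4 : exp (1 / 2 : ℝ) * exp (1 / 2) = exp 1 := by rw [← exp_add]; norm_num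
  nlinarith [exp_pos (1 / 2 : ℝ)]

theorem card_badOn :
    ∃ c ε : ℝ, 0 < c ∧ 0 < ε ∧ ∀ (V : Type) [Fintype V] [DecidableEq V] (U : Finset V),
      3 ≤ U.card →
      ((badOn ε U).card : ℝ) ≤ 3 * (2 ^ (pairs U).card * exp (-(c * (U.card : ℝ) ^ 2))) := by
  obtain ⟨c, hc, hc1, hmain⟩ := card_exact_le
  obtain ⟨ε, hε, hsmall⟩ := small_subsets (c / 6) (by positivity)
  refine ⟨c / 6, ε, by positivity, hε, fun V _ _ U hU => ?_⟩
  have hsq := sq_le_three_choose hU
  rw [← card_pairs] at hsq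
  have hsq' : (U.card : ℝ) ^ 2 ≤ 3 * (pairs U).card := by exact_mod_cast hsq
  set Rs := (U ×ˢ U).powerset.filter fun R => (R.card : ℝ) ≤ ε * (U.card : ℝ) ^ 2 with hRs
  have h1 : (Rs.card : ℝ) ≤ exp (c / 6 * (U.card : ℝ) ^ 2) :=
    hsmall _ (U ×ˢ U) _ (by rw [card_product]; push_cast; nlinarith)
  have h2 : ∀ R ∈ Rs, (((pairs U).powerset.filter fun S => IsExact (idx U R) (hyp R) S).card : ℝ)
      ≤ 2 * (2 ^ (pairs U).card * exp (-(c / 3 * (U.card : ℝ) ^ 2))) := by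
    intro R hR
    have hRU := mem_powerset.1 (mem_filter.1 hR).1
    have hJ : (idx U R).card ≤ 3 * (pairs U).card := by
      refine le_trans ?_ hsq
      refine (card_le_card (filter_subset _ _)).trans ?_
      rw [card_product, sq]
    refine (hmain _ _ (pairs U) (idx U R) (hyp R) (hyp_ok hRU) hJ).trans ?_
    refine mul_le_mul_of_nonneg_left (mul_le_mul_of_nonneg_left (exp_le_exp.2 ?_)
      (by positivity)) (by norm_num)
    nlinarith
  have h3 : ((Rs.biUnion fun R =>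
      (pairs U).powerset.filter fun S => IsExact (idx U R) (hyp R) S).card : ℝ) ≤
      2 * (2 ^ (pairs U).card * exp (-(c / 6 * (U.card : ℝ) ^ 2))) := by
    have h4 : ((Rs.biUnion fun R =>
        (pairs U).powerset.filter fun S => IsExact (idx U R) (hyp R) S).card : ℝ) ≤
        ∑ R ∈ Rs, (((pairs U).powerset.filter fun S => IsExact (idx U R) (hyp R) S).card : ℝ) := by
      exact_mod_cast card_biUnion_le
    have h5 := sum_le_card_nsmul _ _ _ h2
    rw [nsmul_eq_mul] at h5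
    refine h4.trans (h5.trans ?_)
    calc (Rs.card : ℝ) * (2 * (2 ^ (pairs U).card * exp (-(c / 3 * (U.card : ℝ) ^ 2))))
        ≤ exp (c / 6 * (U.card : ℝ) ^ 2) *
          (2 * (2 ^ (pairs U).card * exp (-(c / 3 * (U.card : ℝ) ^ 2)))) := by gcongr
      _ = 2 * (2 ^ (pairs U).card * (exp (c / 6 * (U.card : ℝ) ^ 2) *
          exp (-(c / 3 * (U.card : ℝ) ^ 2)))) := by ring
      _ = _ := by rw [← exp_add]; congr 3; ring
  have h6 : (1 : ℝ) ≤ 2 ^ (pairs U).card * exp (-(c / 6 * (U.card : ℝ) ^ 2)) := by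
    rw [exp_neg, ← div_eq_mul_inv, one_le_div (exp_pos _)]
    calc exp (c / 6 * (U.card : ℝ) ^ 2) ≤ exp (((pairs U).card : ℝ) * (1 / 2)) := by
          refine exp_le_exp.2 ?_
          have : (0 : ℝ) ≤ (U.card : ℝ) ^ 2 := by positivity
          nlinarith
      _ = exp (1 / 2) ^ (pairs U).card := exp_nat_mul _ _
      _ ≤ 2 ^ (pairs U).card := by gcongr; exact exp_half_le_two
  have h7 : ((badOn ε U).card : ℝ) ≤ ((Rs.biUnion fun R =>
      (pairs U).powerset.filter fun S => IsExact (idx U R) (hyp R) S).card : ℝ) + 1 := by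
    exact_mod_cast card_insert_le _ _
  linarith

/-- The exceptional edge sets on `n` vertices. -/
noncomputable def bad (ε : ℝ) (n k : ℕ) : Finset (Finset (Sym2 (Fin n))) :=
  ((univ : Finset (Fin n)).powerset.filter fun U => k ≤ U.card).biUnion fun U =>
    (pairs (univ : Finset (Fin n))).powerset.filter fun S => S ∩ pairs U ∈ badOn ε U

theorem card_bad :
    ∃ (ε : ℝ) (K0 : ℕ), 0 < ε ∧ ∀ K, K0 ≤ K → ∀ n : ℕ, 2 ≤ n →
      ((bad ε n (K * Nat.log 2 n)).card : ℝ) ≤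
        2 ^ n.choose 2 * (9 * exp (-(Nat.log 2 n : ℝ))) := by
  obtain ⟨c, ε, hc, hε, hb⟩ := card_badOn
  obtain ⟨K0, hK0⟩ := exists_nat_ge (max 3 (3 / c))
  refine ⟨ε, K0, hε, fun K hK n hn => ?_⟩
  set m := Nat.log 2 n with hm
  have hm1 : 1 ≤ m := Nat.log_pos (by norm_num) hn
  have hK3 : 3 ≤ K := by
    have : (3 : ℝ) ≤ K0 := (le_max_left _ _).trans hK0
    have : 3 ≤ K0 := by exact_mod_cast this
    omega
  have hKc : 3 ≤ c * K := by
    have h1 : 3 / c ≤ K := ((le_max_right _ _).trans hK0).trans (by exact_mod_cast hK)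
    rw [div_le_iff₀ hc] at h1
    linarith
  have hn0 : (0 : ℝ) < n := by positivity
  have hm1' : (1 : ℝ) ≤ m := by exact_mod_cast hm1
  have hnexp : (n : ℝ) ≤ exp (2 * m) := by
    have h1 : n < 2 ^ (m + 1) := Nat.lt_pow_succ_log_self (by norm_num) n
    have h2 : (n : ℝ) ≤ 2 ^ (m + 1) := by exact_mod_cast h1.le
    have h3 : (2 : ℝ) ≤ exp 1 := by linarith [add_one_le_exp (1 : ℝ)]
    calc (n : ℝ) ≤ 2 ^ (m + 1) := h2
      _ ≤ exp 1 ^ (m + 1) := by gcongr
      _ = exp ((m + 1 : ℕ) * 1) := (exp_nat_mul _ _).symm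
      _ ≤ exp (2 * m) := by refine exp_le_exp.2 ?_; push_cast; linarith
  have hcp : (pairs (univ : Finset (Fin n))).card = n.choose 2 := by
    rw [card_pairs, card_univ, Fintype.card_fin]
  have h1 : ∀ U ∈ (univ : Finset (Fin n)).powerset.filter fun U => K * m ≤ U.card,
      (((pairs (univ : Finset (Fin n))).powerset.filter
        fun S => S ∩ pairs U ∈ badOn ε U).card : ℝ) ≤
        2 ^ n.choose 2 * (3 * exp (-(m : ℝ))) * (1 / (n : ℝ)) ^ U.card := by
    intro U hU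
    have hU' := (mem_filter.1 hU).2
    have hU3 : 3 ≤ U.card := by nlinarith
    have h2 := card_trace (pairs_mono (subset_univ U)) (badOn ε U)
    rw [hcp] at h2
    refine h2.trans ?_
    have h3 := hb _ U hU3
    have h4 : exp (-(c * (U.card : ℝ) ^ 2)) ≤ exp (-(m : ℝ)) * (1 / (n : ℝ)) ^ U.card := by
      have h5 : exp (-(2 * (m : ℝ))) ≤ 1 / (n : ℝ) := by
        rw [exp_neg, one_div]
        exact inv_anti₀ hn0 hnexp
      have hu : (K : ℝ) * m ≤ U.card := by exact_mod_cast hU'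
      have hu1 : (1 : ℝ) ≤ U.card := by exact_mod_cast (by omega : 1 ≤ U.card)
      calc exp (-(c * (U.card : ℝ) ^ 2))
          ≤ exp (-(m : ℝ) + U.card * (-(2 * (m : ℝ)))) := by
            refine exp_le_exp.2 ?_
            have h6 : c * (K * m) ≤ c * U.card := mul_le_mul_of_nonneg_left hu hc.le
            have h7 : 3 * (m : ℝ) ≤ c * U.card := by nlinarith
            nlinarith
        _ = exp (-(m : ℝ)) * exp (-(2 * (m : ℝ))) ^ U.card := by rw [exp_add, exp_nat_mul]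
        _ ≤ _ := by gcongr
    calc ((badOn ε U).card : ℝ) * (2 ^ n.choose 2 / 2 ^ (pairs U).card)
        ≤ 3 * (2 ^ (pairs U).card * exp (-(c * (U.card : ℝ) ^ 2))) *
          (2 ^ n.choose 2 / 2 ^ (pairs U).card) := by gcongr
      _ = 2 ^ n.choose 2 * 3 * exp (-(c * (U.card : ℝ) ^ 2)) := by field_simp
      _ ≤ 2 ^ n.choose 2 * 3 * (exp (-(m : ℝ)) * (1 / (n : ℝ)) ^ U.card) := by gcongr
      _ = _ := by ring
  have h2 : ∑ U ∈ (univ : Finset (Fin n)).powerset, (1 / (n : ℝ)) ^ U.card ≤ 3 := by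
    have : ∑ U ∈ (univ : Finset (Fin n)).powerset, (1 / (n : ℝ)) ^ U.card =
        ∏ _j ∈ (univ : Finset (Fin n)), (1 + 1 / (n : ℝ)) := by
      rw [prod_one_add]; simp
    rw [this, prod_const, card_univ, Fintype.card_fin]
    calc (1 + 1 / (n : ℝ)) ^ n ≤ exp (1 / (n : ℝ)) ^ n := by
          gcongr; linarith [add_one_le_exp (1 / (n : ℝ))]
      _ = exp 1 := by rw [← exp_nat_mul]; congr 1; field_simp
      _ ≤ 3 := by linarith [Real.exp_one_lt_d9]
  have h3 : ((bad ε n (K * m)).card : ℝ) ≤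
      ∑ U ∈ (univ : Finset (Fin n)).powerset.filter fun U => K * m ≤ U.card,
        (((pairs (univ : Finset (Fin n))).powerset.filter
          fun S => S ∩ pairs U ∈ badOn ε U).card : ℝ) := by
    exact_mod_cast card_biUnion_le
  refine h3.trans ((sum_le_sum h1).trans ?_)
  rw [← mul_sum]
  have h4 : ∑ U ∈ (univ : Finset (Fin n)).powerset.filter fun U => K * m ≤ U.card,
      (1 / (n : ℝ)) ^ U.card ≤ 3 :=
    (sum_le_sum_of_subset_of_nonneg (filter_subset _ _) fun _ _ _ => by positivity).trans h2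
  calc (2 : ℝ) ^ n.choose 2 * (3 * exp (-(m : ℝ))) *
        ∑ U ∈ (univ : Finset (Fin n)).powerset.filter fun U => K * m ≤ U.card,
          (1 / (n : ℝ)) ^ U.card ≤ 2 ^ n.choose 2 * (3 * exp (-(m : ℝ))) * 3 := by gcongr
    _ = _ := by ring

theorem choose_le_two_pow {K s k : ℕ} (hK : 1 ≤ K) (hk : k ≤ 36 * K ^ 2 * s) :
    (s + k).choose s ≤ 2 ^ (18 * K * s) := by
  have h1 : ((s + k).choose s : ℝ) ≤ ((s + k : ℕ) : ℝ) ^ s / s.factorial :=
    Nat.choose_le_pow_div s (s + k)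
  have h2 : ((s + k : ℕ) : ℝ) ≤ (1 + 36 * (K : ℝ) ^ 2) * s := by
    have : ((k : ℕ) : ℝ) ≤ 36 * (K : ℝ) ^ 2 * s := by exact_mod_cast hk
    push_cast; linarith
  have h3 : (s : ℝ) ^ s / s.factorial ≤ exp s := pow_div_factorial_le_exp _ (Nat.cast_nonneg _) s
  have h4 : (1 + 36 * (K : ℝ) ^ 2) * exp 1 ≤ 2 ^ (18 * K) := by
    have h5 := Nat.two_mul_sq_add_one_le_two_pow_two_mul (9 * K)
    have h6 : 2 * (9 * (K : ℝ)) ^ 2 + 1 ≤ 2 ^ (2 * (9 * K)) := by exact_mod_cast h5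
    have h7 : 2 * (9 * K) = 18 * K := by ring
    rw [h7] at h6
    have h8 : (1 : ℝ) ≤ K := by exact_mod_cast hK
    have h9 : exp 1 ≤ 3 := by linarith [Real.exp_one_lt_d9]
    have h10 : (1 + 36 * (K : ℝ) ^ 2) * exp 1 ≤ (1 + 36 * (K : ℝ) ^ 2) * 3 := by gcongr
    nlinarith
  have h5 : ((s + k).choose s : ℝ) ≤ 2 ^ (18 * K * s) := by
    calc ((s + k).choose s : ℝ) ≤ ((s + k : ℕ) : ℝ) ^ s / s.factorial := h1
      _ ≤ ((1 + 36 * (K : ℝ) ^ 2) * s) ^ s / s.factorial := by gcongr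
      _ = (1 + 36 * (K : ℝ) ^ 2) ^ s * ((s : ℝ) ^ s / s.factorial) := by rw [mul_pow]; ring
      _ ≤ (1 + 36 * (K : ℝ) ^ 2) ^ s * exp s := by gcongr
      _ = ((1 + 36 * (K : ℝ) ^ 2) * exp 1) ^ s := by rw [mul_pow, ← exp_nat_mul, mul_one]
      _ ≤ (2 ^ (18 * K)) ^ s := by gcongr
      _ = 2 ^ (18 * K * s) := by rw [← pow_mul]
  exact_mod_cast h5

/-- Outside the exceptional family the lower bound holds. -/
theorem good_of_notMem {ε : ℝ} (hε : 0 < ε) :
    ∃ K1 : ℕ, ∀ K, K1 ≤ K → ∀ n : ℕ, 18 * K ≤ Nat.log 2 n → ∀ G : SimpleGraph (Fin n),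
      G.edgeFinset ∉ bad ε n (K * Nat.log 2 n) →
      (n : ℝ) - (36 * (K : ℝ) ^ 2) * (G.indepNum : ℝ) ≤ (bc G : ℝ) := by
  obtain ⟨T, hT⟩ := exists_nat_ge (max 1 (2 / ε))
  have hT1 : (1 : ℝ) ≤ T := (le_max_left _ _).trans hT
  have hT1' : 1 ≤ T := by exact_mod_cast hT1
  have hT2 : 2 ≤ ε * T := by
    have : 2 / ε ≤ T := (le_max_right _ _).trans hT
    rw [div_le_iff₀ hε] at this
    linarith
  refine ⟨T ^ 2, fun K hK n hn G hG => ?_⟩
  set m := Nat.log 2 n with hm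
  have hK1 : 1 ≤ K := le_trans (Nat.one_le_pow _ _ hT1') hK
  have hm1 : 1 ≤ m := by omega
  have hGsub : G.edgeFinset ⊆ pairs (univ : Finset (Fin n)) := by
    intro z hz
    induction z using Sym2.ind with
    | h v w =>
      exact mem_pairs.2 ⟨mem_univ _, mem_univ _,
        (G.mem_edgeSet.1 (SimpleGraph.mem_edgeFinset.1 hz)).ne⟩
  have hnot : ∀ U : Finset (Fin n), K * m ≤ U.card → G.edgeFinset ∩ pairs U ∉ badOn ε U := by
    intro U hU hb
    exact hG (mem_biUnion.2 ⟨U, mem_filter.2 ⟨mem_powerset.2 (subset_univ _), hU⟩,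
      mem_filter.2 ⟨mem_powerset.2 hGsub, hb⟩⟩)
  have h1 : n < bc G + K * m := by
    by_contra hcon
    obtain ⟨A, B, hP⟩ := exists_partition_bc G
    obtain ⟨U, hU, R, hR, hRc, hex⟩ := encode G hP (K * m) T (by simpa using hcon)
    refine hnot U hU (mem_insert_of_mem (mem_biUnion.2 ⟨R, mem_filter.2 ⟨mem_powerset.2 hR, ?_⟩,
      mem_filter.2 ⟨mem_powerset.2 inter_subset_right, hex⟩⟩))
    have h2 : T ^ 2 ≤ U.card := by nlinarith
    have h3 : T * R.card ≤ 2 * U.card ^ 2 := by nlinarith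
    have h4 : (T : ℝ) * R.card ≤ 2 * (U.card : ℝ) ^ 2 := by exact_mod_cast h3
    have h5 : (0 : ℝ) ≤ (U.card : ℝ) ^ 2 := by positivity
    have h6 : (T : ℝ) * R.card ≤ T * (ε * (U.card : ℝ) ^ 2) := by nlinarith
    exact le_of_mul_le_mul_left h6 (by linarith)
  set s := m / (18 * K) with hs
  have hs1 : 1 ≤ s := (Nat.one_le_div_iff (by omega)).2 hn
  have hsm : 18 * K * s ≤ m := Nat.mul_div_le m (18 * K)
  have hms : m < 18 * K * (s + 1) := Nat.lt_mul_div_succ m (by omega)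
  have hk : K * m ≤ 36 * K ^ 2 * s := by nlinarith
  have hn0 : n ≠ 0 := by
    rintro rfl
    simp at hm
    omega
  have hch : (s + K * m).choose s ≤ (univ : Finset (Fin n)).card := by
    rw [card_univ, Fintype.card_fin]
    calc (s + K * m).choose s ≤ 2 ^ (18 * K * s) := choose_le_two_pow hK1 hk
      _ ≤ 2 ^ m := Nat.pow_le_pow_right (by norm_num) hsm
      _ ≤ n := Nat.pow_log_le_self 2 hn0
  have h2 : s ≤ G.indepNum := by
    rcases ramsey G _ s (K * m) univ rfl hch with ⟨X, -, hc, hi⟩ | ⟨X, -, hc, hi⟩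
    · exact hc ▸ hi.card_le_indepNum
    · exfalso
      refine hnot X hc.ge ?_
      have : G.edgeFinset ∩ pairs X = pairs X := by
        refine inter_eq_right.2 fun z hz => ?_
        induction z using Sym2.ind with
        | h v w =>
          obtain ⟨hv, hw, hvw⟩ := mem_pairs.1 hz
          exact SimpleGraph.mem_edgeFinset.2 (hi hv hw hvw)
      rw [this]
      exact mem_insert_self _ _
  have h3 : n ≤ bc G + 36 * K ^ 2 * G.indepNum := by nlinarith
  have h4 : (n : ℝ) ≤ bc G + 36 * (K : ℝ) ^ 2 * G.indepNum := by exact_mod_cast h3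
  linarith

open MeasureTheory unitInterval in
theorem prob_singleton (p : unitInterval) (hp : (p : ℝ) = 1 / 2) (n : ℕ)
    (G : SimpleGraph (Fin n)) :
    (SimpleGraph.binomialRandom (Fin n) p).real {G} = (1 / 2) ^ n.choose 2 := by
  have h1 : G.edgeSet.ncard ≤ n.choose 2 := by
    have := G.card_edgeFinset_le_card_choose_two
    rw [Fintype.card_fin] at this
    rw [← SimpleGraph.coe_edgeFinset, Set.ncard_coe_finset]
    exact this
  have h2 : ((σ p : unitInterval) : ℝ) = 1 / 2 := by rw [coe_symm_eq, hp]; norm_num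
  rw [Measure.real, SimpleGraph.binomialRandom_singleton]
  simp only [ENNReal.toReal_mul, ENNReal.toReal_pow, ENNReal.coe_toReal,
    unitInterval.coe_toNNReal, hp, h2,
    Nat.card_eq_fintype_card, Fintype.card_fin]
  rw [← pow_add, Nat.add_sub_cancel' h1]

open MeasureTheory Filter Topology in
theorem main (p : unitInterval) (hp : (p : ℝ) = 1 / 2) :
    ∃ C : ℝ, 0 < C ∧ Tendsto (fun n : ℕ => (SimpleGraph.binomialRandom (Fin n) p).real
      {G | (n : ℝ) - C * (G.indepNum : ℝ) ≤ (bc G : ℝ)}) atTop (𝓝 1) := by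
  obtain ⟨ε, K0, hε, hcard⟩ := card_bad
  obtain ⟨K1, hgood⟩ := good_of_notMem hε
  set K := max (max K0 K1) 1 with hK
  have hK0 : K0 ≤ K := (le_max_left _ _).trans (le_max_left _ _)
  have hK1 : K1 ≤ K := (le_max_right _ _).trans (le_max_left _ _)
  have hK2 : 1 ≤ K := le_max_right _ _
  refine ⟨36 * (K : ℝ) ^ 2, by positivity, ?_⟩
  have hlog : Tendsto (fun n : ℕ => Nat.log 2 n) atTop atTop := by
    refine tendsto_atTop.2 fun b => ?_
    filter_upwards [eventually_ge_atTop (2 ^ b)] with n hn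
    exact Nat.le_log_of_pow_le (by norm_num) hn
  have hlim : Tendsto (fun n : ℕ => 1 - 9 * exp (-(Nat.log 2 n : ℝ))) atTop (𝓝 1) := by
    have h1 : Tendsto (fun n : ℕ => exp (-(Nat.log 2 n : ℝ))) atTop (𝓝 0) :=
      tendsto_exp_neg_atTop_nhds_zero.comp (tendsto_natCast_atTop_atTop.comp hlog)
    simpa using (h1.const_mul 9).const_sub 1
  refine tendsto_of_tendsto_of_tendsto_of_le_of_le' hlim tendsto_const_nhds ?_
    (Eventually.of_forall fun n => measureReal_le_one)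
  filter_upwards [hlog.eventually_ge_atTop (18 * K), eventually_ge_atTop 2] with n hn hn2
  set μ := SimpleGraph.binomialRandom (Fin n) p with hμ
  set E : Set (SimpleGraph (Fin n)) :=
    {G | (n : ℝ) - 36 * (K : ℝ) ^ 2 * (G.indepNum : ℝ) ≤ (bc G : ℝ)} with hE
  set F : Finset (SimpleGraph (Fin n)) :=
    univ.filter fun G => G.edgeFinset ∈ bad ε n (K * Nat.log 2 n) with hF
  have hcover : (Set.univ : Set (SimpleGraph (Fin n))) ⊆ E ∪ ⋃ G ∈ F, {G} := by
    intro G _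
    by_cases hG : G.edgeFinset ∈ bad ε n (K * Nat.log 2 n)
    · exact Or.inr (Set.mem_biUnion (mem_coe.2 (mem_filter.2 ⟨mem_univ _, hG⟩)) rfl)
    · exact Or.inl (hgood K hK1 n hn G hG)
  have h1 : (1 : ℝ) ≤ μ.real E + ∑ G ∈ F, μ.real {G} := by
    calc (1 : ℝ) = μ.real Set.univ := probReal_univ.symm
      _ ≤ μ.real (E ∪ ⋃ G ∈ F, {G}) := measureReal_mono hcover
      _ ≤ μ.real E + μ.real (⋃ G ∈ F, {G}) := measureReal_union_le _ _
      _ ≤ _ := by gcongr; exact measureReal_biUnion_finset_le _ _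
  have h2 : ∑ G ∈ F, μ.real {G} = F.card * (1 / 2 : ℝ) ^ n.choose 2 := by
    rw [sum_congr rfl fun G _ => prob_singleton p hp n G, sum_const, nsmul_eq_mul]
  have h3 : F.card ≤ (bad ε n (K * Nat.log 2 n)).card := by
    refine card_le_card_of_injOn (fun G => G.edgeFinset) ?_ ?_
    · intro G hG
      exact mem_coe.2 (mem_filter.1 (mem_coe.1 hG)).2
    · intro G _ G' _ h
      exact SimpleGraph.edgeFinset_inj.1 h
  have h4 : (F.card : ℝ) ≤ 2 ^ n.choose 2 * (9 * exp (-(Nat.log 2 n : ℝ))) :=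
    (Nat.cast_le.2 h3).trans (hcard K hK0 n hn2)
  have h5 : (F.card : ℝ) * (1 / 2 : ℝ) ^ n.choose 2 ≤ 9 * exp (-(Nat.log 2 n : ℝ)) := by
    rw [one_div, inv_pow, ← div_eq_mul_inv, div_le_iff₀ (by positivity)]
    linarith
  linarith

end Pool.Agent.P.MP_48c1a1_co
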